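import Mathlib

/-!
# MP_6afb63_nt: prime values of `k^n (k^n - 1) - 1`

Reduction of the question to factorial exponents, where the values have no small prime factors, and
progressions of exponents in which the least admissible `k` is large.
-/

set_option autoImplicit false

namespace Pool.Agent.Results.MP_6afb63_nt.FactorialExponents

open Nat

/-- The value `F_n(k) = k^n (k^n - 1) - 1`. -/
def F (n k : ℕ) : ℤ := (k : ℤ) ^ n * ((k : ℤ) ^ n - 1) - 1

/-- `a(n)` exists: some `k > 1` has a prime value `F_n(k)`. -/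
def HasPrimeValue (n : ℕ) : Prop := ∃ k : ℕ, 1 < k ∧ Prime (F n k)

private lemma F_mul (n m k : ℕ) : F n (k ^ m) = F (n * m) k := by
  unfold F
  push_cast
  rw [← pow_mul, mul_comm m n]

private lemma has_of_mul {n m : ℕ} (hm : 1 ≤ m) (h : HasPrimeValue (n * m)) : HasPrimeValue n := by
  obtain ⟨k, hk, hp⟩ := h
  refine ⟨k ^ m, Nat.one_lt_pow (by omega) hk, ?_⟩
  rw [F_mul]
  exact hp

private lemma not_dvd_of_zero_or_one {p : ℕ} (hp : p.Prime) {n k : ℕ}
    (h : ((k : ZMod p)) ^ n = 0 ∨ ((k : ZMod p)) ^ n = 1) : ¬ (p : ℤ) ∣ F n k := by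
  have := Fact.mk hp
  intro hd
  have h0 : ((F n k : ℤ) : ZMod p) = 0 := (ZMod.intCast_zmod_eq_zero_iff_dvd _ _).2 hd
  unfold F at h0
  push_cast at h0
  rcases h with h | h <;> rw [h] at h0 <;> simp at h0

private lemma pow_zero_or_one {p : ℕ} (hp : p.Prime) {n : ℕ} (hn : n ≠ 0) (hd : (p - 1) ∣ n)
    (k : ℕ) : ((k : ZMod p)) ^ n = 0 ∨ ((k : ZMod p)) ^ n = 1 := by
  have := Fact.mk hp
  by_cases hk : (k : ZMod p) = 0
  · left; rw [hk, zero_pow hn]
  · right
    obtain ⟨c, rfl⟩ := hd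
    rw [pow_mul, ZMod.pow_card_sub_one_eq_one hk, one_pow]

private lemma pow_ge {n k : ℕ} (hn : 2 ≤ n) (hk : 2 ≤ k) : (4 : ℤ) ≤ (k : ℤ) ^ n := by
  have h1 : 2 ^ 2 ≤ k ^ n := (Nat.pow_le_pow_left hk 2).trans (Nat.pow_le_pow_right (by omega) hn)
  exact_mod_cast h1

private lemma F_gt {n k : ℕ} (hn : 2 ≤ n) (hk : 2 ≤ k) : 1 < F n k := by
  have := pow_ge hn hk
  unfold F
  nlinarith

private lemma F_le (n k : ℕ) : F n k ≤ (k : ℤ) ^ (2 * n) := by
  unfold F
  have : (0 : ℤ) ≤ (k : ℤ) ^ n := by positivity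
  have e : (k : ℤ) ^ (2 * n) = (k : ℤ) ^ n * (k : ℤ) ^ n := by rw [← pow_add]; congr 1; ring
  rw [e]
  nlinarith

/-- the prime factor of `F n k` which is used -/
private noncomputable def q (n k : ℕ) : ℕ := (F n k).toNat.minFac

private lemma toNat_cast {n k : ℕ} (hn : 2 ≤ n) (hk : 2 ≤ k) : ((F n k).toNat : ℤ) = F n k :=
  Int.toNat_of_nonneg (by have := F_gt hn hk; omega)

private lemma q_prime {n k : ℕ} (hn : 2 ≤ n) (hk : 2 ≤ k) : (q n k).Prime := by
  apply Nat.minFac_prime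
  have h1 := toNat_cast hn hk
  have h2 := F_gt hn hk
  omega

private lemma q_dvd {n k : ℕ} (hn : 2 ≤ n) (hk : 2 ≤ k) : (q n k : ℤ) ∣ F n k := by
  rw [← toNat_cast hn hk]
  exact Int.natCast_dvd_natCast.2 (Nat.minFac_dvd _)

private lemma q_le_F {n k : ℕ} (hn : 2 ≤ n) (hk : 2 ≤ k) : (q n k : ℤ) ≤ F n k :=
  Int.le_of_dvd (by have := F_gt hn hk; omega) (q_dvd hn hk)

private lemma q_le {n k : ℕ} (hn : 2 ≤ n) (hk : 2 ≤ k) : q n k ≤ k ^ (2 * n) := by
  have h := (q_le_F hn hk).trans (F_le n k)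
  exact_mod_cast h

private lemma F_congr {k n m p : ℕ} (hp : p.Prime) (hm : 2 ≤ m) (h2 : m ≤ n)
    (hd : (p - 1) ∣ n - m) (h : (p : ℤ) ∣ F m k) : (p : ℤ) ∣ F n k := by
  have := Fact.mk hp
  rw [← ZMod.intCast_zmod_eq_zero_iff_dvd] at h ⊢
  unfold F at h ⊢
  push_cast at h ⊢
  have hk : (k : ZMod p) ≠ 0 := by
    intro h0
    rw [h0, zero_pow (by omega)] at h
    simp at h
  obtain ⟨c, hc⟩ := hd
  have hn : n = m + (p - 1) * c := by omega
  rw [hn, pow_add, pow_mul, ZMod.pow_card_sub_one_eq_one hk, one_pow, mul_one]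
  exact h

private lemma F_lt {k n m : ℕ} (hk : 2 ≤ k) (hm : 2 ≤ m) (hn : m < n) : F m k < F n k := by
  unfold F
  have h1 : (k : ℤ) ^ m < (k : ℤ) ^ n :=
    pow_lt_pow_right₀ (by exact_mod_cast (show 1 < k by omega)) hn
  have h2 := pow_ge hm hk
  nlinarith

/-- (1) The exponents with a prime value are closed under divisors; so Q1 holds if and only if
infinitely many factorial exponents have a prime value. (2) For the exponent `m!` no value has a
prime factor `≤ m + 1`. (3) For every `m ≥ 2` and every `K` there is `M ≤ (K!)^(2m)` such that for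
all `n > m` with `n ≡ m` modulo `M` all values at `1 < k ≤ K` are composite. -/
theorem result :
    (∀ n m : ℕ, 1 ≤ m → HasPrimeValue (n * m) → HasPrimeValue n) ∧
    ((∀ n : ℕ, 1 ≤ n → HasPrimeValue n) ↔ ∀ N : ℕ, ∃ m : ℕ, N ≤ m ∧ HasPrimeValue (m !)) ∧
    (∀ m k p : ℕ, p.Prime → p ≤ m + 1 → ¬ (p : ℤ) ∣ F (m !) k) ∧
    (∀ m K : ℕ, 2 ≤ m → ∃ M : ℕ, 1 ≤ M ∧ M ≤ (K !) ^ (2 * m) ∧
      ∀ n : ℕ, m < n → n ≡ m [MOD M] → ∀ k : ℕ, 1 < k → k ≤ K → ¬ Prime (F n k)) := by
  refine ⟨fun n m hm h => has_of_mul hm h, ⟨fun h N => ⟨N, le_rfl, h _ (Nat.factorial_pos N)⟩,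
    fun h n hn => ?_⟩, fun m k p hp hpm => ?_, fun m K hm => ?_⟩
  · obtain ⟨m, hm, hP⟩ := h n
    obtain ⟨c, hc⟩ := Nat.dvd_factorial hn hm
    rw [hc] at hP
    refine has_of_mul ?_ hP
    rcases Nat.eq_zero_or_pos c with h0 | h0
    · exfalso
      rw [h0, Nat.mul_zero] at hc
      exact (Nat.factorial_pos m).ne' hc
    · exact h0
  · apply not_dvd_of_zero_or_one hp
    apply pow_zero_or_one hp (Nat.factorial_pos m).ne'
    have h2 := hp.two_le
    exact Nat.dvd_factorial (by omega) (by omega)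
  · refine ⟨∏ k ∈ Finset.Icc 2 K, (q m k - 1), ?_, ?_, ?_⟩
    · apply Finset.one_le_prod'
      intro k hk
      have := (q_prime hm (Finset.mem_Icc.1 hk).1).two_le
      omega
    · calc ∏ k ∈ Finset.Icc 2 K, (q m k - 1) ≤ ∏ k ∈ Finset.Icc 2 K, k ^ (2 * m) := by
            apply Finset.prod_le_prod'
            intro k hk
            have := q_le hm (Finset.mem_Icc.1 hk).1
            omega
        _ = (∏ k ∈ Finset.Icc 2 K, k) ^ (2 * m) := by rw [Finset.prod_pow]
        _ ≤ (K !) ^ (2 * m) := by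
            apply Nat.pow_le_pow_left
            rw [← Finset.prod_Ico_id_eq_factorial]
            apply Finset.prod_le_prod_of_subset_of_one_le'
            · intro x hx
              have := Finset.mem_Icc.1 hx
              exact Finset.mem_Ico.2 ⟨by omega, by omega⟩
            · intro i hi _
              exact (Finset.mem_Ico.1 hi).1
    · intro n hn hmod k hk hkK hP
      have hk2 : 2 ≤ k := hk
      have hp := q_prime hm hk2
      have hd1 : (q m k - 1) ∣ ∏ j ∈ Finset.Icc 2 K, (q m j - 1) :=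
        Finset.dvd_prod_of_mem (fun j => q m j - 1) (Finset.mem_Icc.2 ⟨hk2, hkK⟩)
      have hd2 : (∏ j ∈ Finset.Icc 2 K, (q m j - 1)) ∣ n - m :=
        (Nat.modEq_iff_dvd' (by omega)).1 hmod.symm
      have hdF := F_congr (k := k) hp hm (by omega) (hd1.trans hd2) (q_dvd hm hk2)
      have hlt := F_lt hk2 hm hn
      have hle := q_le_F hm hk2
      have hpi : Prime (q m k : ℤ) := Nat.prime_iff_prime_int.1 hp
      have hass := (hpi.dvd_prime_iff_associated hP).1 hdF
      have habs := Int.associated_iff_natAbs.1 hass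
      have h1 : (q m k : ℤ).natAbs = q m k := Int.natAbs_natCast _
      have h2 : 0 < F n k := by
        have : (0 : ℤ) < q m k := by exact_mod_cast hp.pos
        linarith
      have h3 : ((F n k).natAbs : ℤ) = F n k := Int.natAbs_of_nonneg h2.le
      rw [h1] at habs
      have : (q m k : ℤ) = F n k := by rw [← h3, ← habs]
      linarith

end Pool.Agent.Results.MP_6afb63_nt.FactorialExponents
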