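import Pool.Agent.H89.PV.Main

/-!
# The least base with a prime value of `k ^ n * (k ^ n - 1) - 1` is not bounded

If `n + 1` is divisible by `3 * lcm (1, ..., K + 2)` then the value is composite for every base
from `2` to `K`; so for infinitely many exponents `n` all bases up to `c * log n` fail, for every
constant `c < 1 / log 4`.
-/

namespace Pool.Agent.Results.MP_6afb63_nt.LogarithmicGrowth

theorem result :
    (∀ K n : ℕ, 2 ≤ n → 3 * Nat.lcmUpto (K + 2) ∣ n + 1 →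
      ∀ k : ℕ, 2 ≤ k → k ≤ K → ¬ Nat.Prime (k ^ n * (k ^ n - 1) - 1)) ∧
    (∀ c : ℝ, c < 1 / Real.log 4 → ∀ N : ℕ, ∃ n : ℕ, N < n ∧
      ∀ k : ℕ, 2 ≤ k → (k : ℝ) ≤ c * Real.log n → ¬ Nat.Prime (k ^ n * (k ^ n - 1) - 1)) :=
  ⟨fun _ _ hn hL _ hk hK => Pool.Agent.H89.PV.composite hn hL hk hK,
    fun _ hc N => Pool.Agent.H89.PV.exists_exponent hc N⟩

end Pool.Agent.Results.MP_6afb63_nt.LogarithmicGrowth
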